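import Pool.Agent.H37.CNE.Stmts

/-!
# Row TMI of the board `cne`
-/

set_option autoImplicit false

namespace Pool.CND

open Finset

/-- a constant multiple of an element of order `n` which is `Ge (n + 1)` vanishes -/
theorem H79.const_zero {k L : Type} [Field k] [Field L] [Algebra k L] (P : Place k L) (c : k)
    (x : L) (n : ℤ) (hx : x ≠ 0) (hn : P.ord x = n)
    (h : P.Ge (algebraMap k L c * x) (n + 1)) : c = 0 := by
  by_contra hc
  have hc' : algebraMap k L c ≠ 0 := by
    intro h0
    exact hc ((map_eq_zero (algebraMap k L)).1 h0)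
  have h1 := h.resolve_left (mul_ne_zero hc' hx)
  rw [P.ord_mul _ _ hc' hx, P.ord_const c hc, hn] at h1
  omega

theorem tmi_thm (h1 : S_EXP) (h2 : S_LON) (h3 : S_INJ) : S_TMI := by
  intro p k L _ _ _ P ε hp hchar hp2 hε hε2 hε1
  have h20 : (2 : k) ≠ 0 := by
    have h := CharP.cast_eq_zero_iff k p 2
    intro h0
    have h4 : p ∣ 2 := h.1 (by exact_mod_cast h0)
    exact hp2 ((Nat.prime_dvd_prime_iff_eq hp Nat.prime_two).1 h4)
  have hεε : ∀ x : L, ε (ε x) = x := by
    intro x
    have h := congrArg (fun g : L ≃ₐ[k] L => g x) hε2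
    simpa [pow_two, AlgEquiv.mul_apply] using h
  have hpi := P.pi_ne
  have hεpi : ε P.pi ≠ 0 := by simpa using hpi
  have hord : P.ord (ε P.pi) = 1 := by rw [hε _ hpi, P.ord_pi]
  obtain ⟨c, hc, hc2⟩ := h1 k L P P.pi (ε P.pi) hpi P.ord_pi hεpi
  rw [hord, zpow_one] at hc2
  have hc2' : P.Ge (ε P.pi - algebraMap k L c * P.pi) 2 := by
    simpa using hc2
  have h4 : P.Ge (P.pi - algebraMap k L c * ε P.pi) 2 := by
    have h := hε.ge hc2'
    rw [map_sub, map_mul, hεε, AlgEquiv.commutes] at h
    exact h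
  have h5 : P.Ge (algebraMap k L c * (ε P.pi - algebraMap k L c * P.pi)) 2 := by
    have h := P.ge_mul (P.ge_const c) hc2'
    simpa using h
  have h6 : P.Ge (algebraMap k L (1 - c * c) * P.pi) 2 := by
    have h := P.ge_add h4 h5
    have e : P.pi - algebraMap k L c * ε P.pi +
        algebraMap k L c * (ε P.pi - algebraMap k L c * P.pi) =
        algebraMap k L (1 - c * c) * P.pi := by
      rw [map_sub, map_one, map_mul]; ring
    rwa [e] at h
  have h7 : 1 - c * c = 0 := H79.const_zero P _ _ 1 hpi P.ord_pi (by simpa using h6)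
  have h8 : (1 - c) * (1 + c) = 0 := by linear_combination h7
  rcases mul_eq_zero.1 h8 with h9 | h9
  · exfalso
    have hc1 : c = 1 := by linear_combination -h9
    subst hc1
    rw [map_one, one_mul] at hc2'
    have hne : ε P.pi - P.pi ≠ 0 := by
      intro h0
      exact hε1 (h3 k L P ε P.pi hε hpi P.ord_pi (sub_eq_zero.1 h0))
    set n := P.ord (ε P.pi - P.pi) with hn
    have hn2 : 2 ≤ n := hc2'.resolve_left hne
    have h10 := h2 k L P ε P.pi (n - 1) hε hpi P.ord_pi (by omega)
      (Or.inr (by omega)) (ε P.pi - P.pi)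
    have h11 := h10.resolve_right hne
    rw [map_sub, hεε, ← hn] at h11
    have e : P.pi - ε P.pi - (ε P.pi - P.pi) = algebraMap k L (-2) * (ε P.pi - P.pi) := by
      rw [map_neg, map_ofNat]; ring
    rw [e] at h11
    have h12 := H79.const_zero P (-2) _ n hne hn.symm (P.ge_mono h11 (by omega))
    exact h20 (by linear_combination -h12)
  · have hc1 : c = -1 := by linear_combination h9
    subst hc1
    rw [map_neg, map_one] at hc2'
    simpa using hc2'

end Pool.CND
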