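import Pool.Agent.H37.CNE.Stmts

/-!
# Row UPG of the board `cne`
-/

set_option autoImplicit false

namespace Pool.CND

open Finset

theorem H79.even_sm {G : Type} [Fintype G] (b : G → ℤ) (T : Set G) (h : ∀ g ∈ T, Even (b g)) :
    Even (sm b T) := by
  unfold sm
  refine Finset.sum_induction _ Even (fun a b ha hb => ha.add hb) (by simp) ?_
  intro g hg
  exact h g (by simpa using hg)

theorem upg_thm (h1 : S_WLD) (h2 : S_SUB) (h3 : S_UMW) (h4 : S_HBP) (h5 : S_ELA) (h6 : S_CON)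
    (h7 : S_TMI) (h8 : S_TMC) : S_UPG := by
  intro p k G _ _ _ hp hchar c hc
  have : Fintype G := Fintype.ofFinite G
  obtain ⟨L, _, _, ρ, t, hcov, P, hP, hcond⟩ := hc
  have hinj := hcov.inj
  obtain ⟨W, I, hW, hI, hWI, ⟨r, hr⟩, m, hm, hcard⟩ := h1 p k L G P ρ hp hchar hinj
  obtain ⟨W', I', hW', hI', hWI', hnorm⟩ := h2 k L G P ρ
  have eW : W' = W := SetLike.coe_injective (hW'.trans hW.symm)
  have eI : I' = I := SetLike.coe_injective (hI'.trans hI.symm)
  subst eW
  subst eI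
  rcases h6 k L G P ρ W' I' c hinj hW hI hcond with h | ⟨l, hl, hlc⟩
  · exact Or.inl h
  right
  have hWpos : (0 : ℚ) < Nat.card W' := by exact_mod_cast Nat.card_pos
  have hmc : (m : ℚ) * c = U (fun g => P.b (ρ g)) W' l := by
    have e : (Nat.card I' : ℚ) = m * Nat.card W' := by rw [hcard]; push_cast; rfl
    rw [e] at hlc
    have e2 : (Nat.card W' : ℚ) * ((m : ℚ) * c) =
        Nat.card W' * U (fun g => P.b (ρ g)) W' l := by rw [← hlc]; ring
    exact mul_left_cancel₀ hWpos.ne' e2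
  have hUM := h3 k L G P ρ W' hinj hW
  have hHB := h4 p k L G P ρ W' hp hchar hinj hW
  refine ⟨W', I', m, hWI', ?_, ⟨r, hr⟩, hnorm, hm, hcard, ?_, ?_⟩
  · rintro rfl
    obtain ⟨g, hg, hg1, -⟩ := hl.mem
    exact hg1 (Subgroup.mem_bot.1 hg)
  · intro hEA
    obtain ⟨z, -, hz⟩ := h5 p G _ W' l hp hUM hHB hEA hl
    exact ⟨z, by rw [hmc, hz]⟩
  · intro hEA hp2 ⟨ε, hεI, hε2, hε1, hεW⟩
    obtain ⟨z, -, hz⟩ := h5 p G _ W' l hp hUM hHB hEA hl
    have hεfix : Fixes P (ρ ε) := by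
      have h : ε ∈ ram P ρ 0 := by rw [← hI]; exact hεI
      exact h.1
    have hge := h7 p k L P (ρ ε) hp hchar hp2 hεfix (by rw [← map_pow, hε2, map_one])
      (fun h => hε1 (hinj (by rw [h, map_one])))
    have heven : ∀ g ∈ W', g ≠ 1 → Even (P.b (ρ g)) := by
      intro g hg hg1
      have hgfix : Fixes P (ρ g) := by
        have h : g ∈ ram P ρ 1 := by rw [← hW]; exact hg
        exact h.1
      exact h8 p k L P (ρ ε) (ρ g) hp hchar hp2 hεfix hgfix
        (by rw [← map_mul, hεW g hg, map_mul]) hge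
        (fun h => hg1 (hinj (by rw [h, map_one]))) (hUM.pos g hg hg1)
    have hl2 : Even l := by
      obtain ⟨g, hg, hg1, hgl⟩ := hl.mem
      rw [← hgl]
      exact heven g hg hg1
    have hsm : Even (sm (fun g => P.b (ρ g)) {g | g ∈ W' ∧ g ≠ 1}) := by
      exact H79.even_sm _ _ (fun g hg => heven g hg.1 hg.2)
    have hodd : Odd (Nat.card W' : ℤ) := by
      rw [hr]
      push_cast
      have h9 : Odd (p : ℤ) := by
        exact_mod_cast hp.odd_of_ne_two hp2
      exact h9.pow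
    have hzz : (Nat.card W' : ℤ) * z = l + sm (fun g => P.b (ρ g)) {g | g ∈ W' ∧ g ≠ 1} := by
      have h9 : (Nat.card W' : ℚ) * z =
          (l : ℚ) + sm (fun g => P.b (ρ g)) {g | g ∈ W' ∧ g ≠ 1} := by
        rw [← hz, U]
        field_simp
      exact_mod_cast h9
    have hzev : Even z := by
      have h9 : Even ((Nat.card W' : ℤ) * z) := by rw [hzz]; exact hl2.add hsm
      rcases Int.even_mul.1 h9 with h10 | h10
      · exact absurd h10 (Int.not_even_iff_odd.2 hodd)
      · exact h10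
    obtain ⟨y, hy⟩ := hzev
    refine ⟨y, ?_⟩
    rw [hmc, hz, hy]
    push_cast
    ring

end Pool.CND
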