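import Pool.Agent.H79.CNE.TMI

/-!
# Row TMC of the board `cne`
-/

set_option autoImplicit false

namespace Pool.CND

open Finset

theorem H79.ge_pow_sub {k L : Type} [Field k] [Field L] [Algebra k L] (P : Place k L) (x y : L)
    (hx : P.Ge x 1) (hy : P.Ge y 1) (hxy : P.Ge (x - y) 2) (n : ℕ) :
    P.Ge (x ^ n - y ^ n) (n + 1) := by
  have hpw : ∀ m : ℕ, P.Ge (y ^ m) m := by
    intro m
    induction m with
    | zero => rw [pow_zero]; exact Or.inr (by rw [P.ord_one]; simp)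
    | succ m ih =>
      rw [pow_succ]
      have h := P.ge_mul ih hy
      simpa using h
  induction n with
  | zero => exact Or.inl (by simp)
  | succ n ih =>
    have e : x ^ (n + 1) - y ^ (n + 1) = x * (x ^ n - y ^ n) + (x - y) * y ^ n := by ring
    rw [e]
    refine P.ge_add (P.ge_mono (P.ge_mul hx ih) ?_) (P.ge_mono (P.ge_mul hxy (hpw n)) ?_)
    · push_cast; omega
    · push_cast; omega

theorem tmc_thm (h1 : S_EXP) (h2 : S_LON) (h3 : S_INJ) : S_TMC := by
  intro p k L _ _ _ P ε g hp hchar hp2 hε hg hcomm hεpi hg1 hb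
  have h20 : (2 : k) ≠ 0 := by
    have h := CharP.cast_eq_zero_iff k p 2
    intro h0
    have h4 : p ∣ 2 := h.1 (by exact_mod_cast h0)
    exact hp2 ((Nat.prime_dvd_prime_iff_eq hp Nat.prime_two).1 h4)
  have hpi := P.pi_ne
  have hcm : ∀ x : L, ε (g x) = g (ε x) := by
    intro x
    have h := congrArg (fun f : L ≃ₐ[k] L => f x) hcomm
    simpa [AlgEquiv.mul_apply] using h
  obtain ⟨n, hn⟩ : ∃ n : ℕ, P.b g = n := ⟨(P.b g).toNat, by omega⟩
  have hbn : P.ord (g P.pi - P.pi) = n + 1 := by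
    have h : P.b g = P.ord (g P.pi - P.pi) - 1 := rfl
    omega
  have hn1 : 1 ≤ n := by omega
  have hy : g P.pi - P.pi ≠ 0 := by
    intro h0
    exact hg1 (h3 k L P g P.pi hg hpi P.ord_pi (sub_eq_zero.1 h0))
  obtain ⟨a, ha, ha2⟩ := h1 k L P P.pi (g P.pi - P.pi) hpi P.ord_pi hy
  rw [hbn] at ha2
  have e0 : (P.pi ^ ((n : ℤ) + 1) : L) = P.pi ^ (n + 1) := by
    rw [← zpow_natCast]; push_cast; rfl
  rw [e0] at ha2
  -- the element w = επ + π
  have hw : P.Ge (g (ε P.pi + P.pi) - (ε P.pi + P.pi)) (n + 2) := by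
    by_cases h0 : ε P.pi + P.pi = 0
    · exact Or.inl (by rw [h0, map_zero, sub_zero])
    have h := h2 k L P g P.pi n hg hpi P.ord_pi (by omega) (Or.inr (by omega)) (ε P.pi + P.pi)
    have h' := h.resolve_right h0
    have h'' := hεpi.resolve_left h0
    exact P.ge_mono h' (by omega)
  -- ε y in two ways
  have h3' : P.Ge (ε (g P.pi - P.pi) - algebraMap k L a * (ε P.pi) ^ (n + 1)) (n + 2) := by
    have h := hε.ge ha2
    rw [map_sub, map_mul, map_pow, AlgEquiv.commutes] at h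
    exact P.ge_mono h (by omega)
  have hε1 : P.Ge (ε P.pi) 1 := Or.inr (by rw [hε _ hpi, P.ord_pi])
  have hpi1 : P.Ge (-P.pi) 1 := Or.inr (by rw [P.ord_neg, P.ord_pi])
  have h4 : P.Ge ((ε P.pi) ^ (n + 1) - (-P.pi) ^ (n + 1)) (n + 2) := by
    have h := H79.ge_pow_sub P (ε P.pi) (-P.pi) hε1 hpi1 (by rw [sub_neg_eq_add]; exact hεpi)
      (n + 1)
    exact P.ge_mono h (by push_cast; omega)
  have h5 : P.Ge (algebraMap k L a * ((ε P.pi) ^ (n + 1) - (-P.pi) ^ (n + 1))) (n + 2) := by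
    have h := P.ge_mul (P.ge_const a) h4
    simpa using h
  have h6 : P.Ge (ε (g P.pi - P.pi) + (g P.pi - P.pi)) (n + 2) := by
    have e : ε (g P.pi - P.pi) + (g P.pi - P.pi) =
        g (ε P.pi + P.pi) - (ε P.pi + P.pi) := by
      rw [map_sub, map_add, hcm]; ring
    rw [e]; exact hw
  have h7 : P.Ge (g P.pi - P.pi - algebraMap k L a * P.pi ^ (n + 1)) (n + 2) :=
    P.ge_mono ha2 (by omega)
  have h8 : P.Ge (algebraMap k L (a * ((-1) ^ (n + 1) + 1)) * P.pi ^ (n + 1)) (n + 2) := by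
    have h := P.ge_sub h6 (P.ge_add (P.ge_add h3' h5) h7)
    have e : ε (g P.pi - P.pi) + (g P.pi - P.pi) -
        (ε (g P.pi - P.pi) - algebraMap k L a * (ε P.pi) ^ (n + 1) +
          algebraMap k L a * ((ε P.pi) ^ (n + 1) - (-P.pi) ^ (n + 1)) +
          (g P.pi - P.pi - algebraMap k L a * P.pi ^ (n + 1))) =
        algebraMap k L (a * ((-1) ^ (n + 1) + 1)) * P.pi ^ (n + 1) := by
      rw [map_mul, map_add, map_pow, map_neg, map_one, neg_pow P.pi]; ring
    rwa [e] at h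
  have h9 : a * ((-1) ^ (n + 1) + 1) = 0 := by
    refine H79.const_zero P _ _ (n + 1) (pow_ne_zero _ hpi) ?_ (P.ge_mono h8 (by omega))
    rw [P.ord_pow hpi, P.ord_pi]; push_cast; ring
  have h10 : ((-1 : k)) ^ (n + 1) + 1 = 0 := (mul_eq_zero.1 h9).resolve_left ha
  rw [hn]
  have h11 : Even n := by
    by_contra hodd
    rw [Nat.not_even_iff_odd] at hodd
    have h12 : Even (n + 1) := hodd.add_one
    rw [h12.neg_one_pow] at h10
    exact h20 (by linear_combination h10)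
  exact_mod_cast h11

end Pool.CND
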